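import Mathlib

/-!
# Minimal invertible pieces of `r` and of `r ^ k` can be different

Let `u = a a t a⁻¹ t a⁻¹ a⁻¹` and `r = a a⁻¹ u u⁻¹ t`. In `Inv⟨a, t ∣ r = 1⟩` one has `a a⁻¹ = 1`,
`u u⁻¹ = 1`, hence `t = 1`, `u = a⁻¹` and `a⁻¹ a = 1`, so that `a` is a unit. But `a` is not a unit in
`Inv⟨a, t ∣ r ^ 3 = 1⟩`: let `a` act on `ℕ` by `n ↦ 2 n` and let `t` be the permutation with the
cycles `(2 n + 1, 4 n, 4 n + 2)`; then `a a⁻¹` and `u u⁻¹` act as the identity and `t ^ 3 = 1`.
-/

set_option autoImplicit false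

namespace Pool.Agent.Results.MP_d4551b_al.PiecesDiffer

/-! ### The definitions of the problem -/

/-- words over `A ∪ A⁻¹`; the letter `(a, true)` is `a` and `(a, false)` is `a⁻¹` -/
abbrev Word (A : Type) : Type := FreeMonoid (A × Bool)

variable {A : Type}

/-- the formal inverse of a word -/
def winv (w : Word A) : Word A :=
  FreeMonoid.ofList ((FreeMonoid.toList w).reverse.map fun p => (p.1, !p.2))

/-- the defining relations of `Inv⟨A ∣ r = 1⟩`: the relations `u u⁻¹ u = u` and
`u u⁻¹ v v⁻¹ = v v⁻¹ u u⁻¹` of the free inverse monoid, and `r = 1` -/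
inductive Rel (r : Word A) : Word A → Word A → Prop
  | inverse (u : Word A) : Rel r (u * winv u * u) u
  | commute (u v : Word A) : Rel r (u * winv u * (v * winv v)) (v * winv v * (u * winv u))
  | relator : Rel r r 1

/-- the special inverse monoid `Inv⟨A ∣ r = 1⟩` -/
abbrev Inv (r : Word A) : Type := (conGen (Rel r)).Quotient

/-- the element of `Inv⟨A ∣ r = 1⟩` represented by the word `w` -/
def val (r w : Word A) : Inv r := w

/-- The set of the minimal invertible pieces of `r` in `Inv⟨A ∣ r = 1⟩`: a piece is a nonempty factor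
`p` of `r ≡ x p y` such that `x` and `x p` represent units and no `x q`, with `q` a proper nonempty
prefix of `p`, represents a unit. -/
def pieces (r : Word A) : Set (Word A) :=
  {p | ∃ x y : Word A, r = x * p * y ∧ p ≠ 1 ∧ IsUnit (val r x) ∧ IsUnit (val r (x * p)) ∧
    ∀ q q' : Word A, p = q * q' → q ≠ 1 → q' ≠ 1 → ¬ IsUnit (val r (x * q))}

/-! ### Basic facts -/

theorem val_mul (r u v : Word A) : val r (u * v) = val r u * val r v := rfl

theorem val_one (r : Word A) : val r 1 = 1 := rfl

theorem val_inverse (r u : Word A) : val r (u * winv u * u) = val r u :=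
  (Con.eq _).2 (ConGen.Rel.of _ _ (Rel.inverse u))

theorem val_relator (r : Word A) : val r r = 1 :=
  (Con.eq _).2 (ConGen.Rel.of _ _ Rel.relator)

/-- a right invertible word `u` satisfies `u u⁻¹ = 1` -/
theorem right_inv {r u v : Word A} (h : val r u * val r v = 1) : val r u * val r (winv u) = 1 := by
  have h1 := val_inverse r u
  rw [val_mul, val_mul] at h1
  calc val r u * val r (winv u) = val r u * val r (winv u) * (val r u * val r v) := by
        rw [h, mul_one]
    _ = val r u * val r (winv u) * val r u * val r v := by rw [mul_assoc (_ * _)]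
    _ = 1 := by rw [h1, h]

/-! ### The word -/

/-- the letter `a` -/
def a : Word (Fin 2) := FreeMonoid.of (0, true)
/-- the letter `a⁻¹` -/
def a' : Word (Fin 2) := FreeMonoid.of (0, false)
/-- the letter `t` -/
def t : Word (Fin 2) := FreeMonoid.of (1, true)

/-- the word `u = a a t a⁻¹ t a⁻¹ a⁻¹` -/
def u : Word (Fin 2) := a * a * t * a' * t * a' * a'

/-- the word `r = a a⁻¹ u u⁻¹ t` -/
def r : Word (Fin 2) := a * a' * u * winv u * t

theorem winv_a : winv a = a' := rfl
theorem winv_a' : winv a' = a := rfl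

/-- `a` is a unit in `Inv⟨a, t ∣ r = 1⟩` -/
theorem isUnit_a : IsUnit (val r a) := by
  have h0 : val r (a * a' * u * winv u * t) = 1 := val_relator r
  simp only [val_mul] at h0
  have h1 : val r a * val r a' = 1 := by
    have := right_inv (r := r) (u := a) (v := a' * u * winv u * t) (by
      simp only [val_mul]
      simpa only [mul_assoc] using h0)
    rwa [winv_a] at this
  rw [h1, one_mul] at h0
  have h2 : val r u * val r (winv u) = 1 :=
    right_inv (r := r) (u := u) (v := winv u * t) (by
      simp only [val_mul]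
      simpa only [mul_assoc] using h0)
  rw [h2, one_mul] at h0
  have h3 : val r u = val r a' := by
    show val r (a * a * t * a' * t * a' * a') = _
    simp only [val_mul, h0, mul_one]
    rw [mul_assoc (val r a), h1, mul_one, h1, one_mul]
  rw [h3] at h2
  have h4 := right_inv h2
  rw [winv_a'] at h4
  exact ⟨⟨val r a, val r a', h1, h4⟩, rfl⟩

/-! ### The action on `ℕ` -/

/-- partial bijections of `ℕ` -/
def PI : Type := ℕ ≃. ℕ

/-- the composition of partial bijections, from left to right -/
instance : Monoid PI where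
  mul f g := PEquiv.trans f g
  one := PEquiv.refl ℕ
  mul_assoc f g h := PEquiv.trans_assoc f g h
  one_mul f := PEquiv.refl_trans f
  mul_one f := PEquiv.trans_refl f

/-- the inverse partial bijection -/
def PI.inv (f : PI) : PI := PEquiv.symm f

theorem PI.inv_mul (f g : PI) : (f * g).inv = g.inv * f.inv := PEquiv.symm_trans_rev f g
theorem PI.inv_inv (f : PI) : f.inv.inv = f := rfl
theorem PI.inv_one : (1 : PI).inv = 1 := rfl

/-- the value of a partial bijection at `n` -/
def PI.app (f : PI) (n : ℕ) : Option ℕ := PEquiv.toFun f n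

theorem PI.ext {f g : PI} (h : ∀ n, f.app n = g.app n) : f = g := PEquiv.ext h

theorem pe_mul_inv_mul (f : ℕ ≃. ℕ) : (f.trans f.symm).trans f = f := by
  classical
  apply PEquiv.ext
  intro n
  rw [PEquiv.self_trans_symm]
  apply Option.ext
  intro m
  rw [PEquiv.trans_eq_some]
  constructor
  · rintro ⟨k, h1, h2⟩
    rw [PEquiv.ofSet_eq_some_iff] at h1
    rw [← h2, h1.1]
  · intro h
    refine ⟨n, ?_, h⟩
    rw [PEquiv.ofSet_eq_some_self_iff]
    show (f n).isSome
    rw [h]
    rfl

theorem pe_idem_comm (f g : ℕ ≃. ℕ) : (f.trans f.symm).trans (g.trans g.symm) =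
    (g.trans g.symm).trans (f.trans f.symm) := by
  classical
  apply PEquiv.ext
  intro n
  rw [PEquiv.self_trans_symm, PEquiv.self_trans_symm]
  apply Option.ext
  intro m
  rw [PEquiv.trans_eq_some, PEquiv.trans_eq_some]
  simp only [PEquiv.ofSet_eq_some_iff]
  constructor
  · rintro ⟨k, ⟨rfl, h1⟩, rfl, h2⟩
    exact ⟨_, ⟨rfl, h2⟩, rfl, h1⟩
  · rintro ⟨k, ⟨rfl, h1⟩, rfl, h2⟩
    exact ⟨_, ⟨rfl, h2⟩, rfl, h1⟩

theorem PI.mul_inv_mul (f : PI) : f * f.inv * f = f := pe_mul_inv_mul f

theorem PI.idem_comm (f g : PI) : f * f.inv * (g * g.inv) = g * g.inv * (f * f.inv) :=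
  pe_idem_comm f g

/-- the map `n ↦ 2 n` -/
def fa : PI where
  toFun n := some (2 * n)
  invFun n := if n % 2 = 0 then some (n / 2) else none
  inv n m := by
    split_ifs with h
    · simp only [Option.some.injEq]
      omega
    · simp only [Option.some.injEq, false_iff]
      omega

/-- the permutation `2 n + 1 ↦ 4 n ↦ 4 n + 2 ↦ 2 n + 1` -/
def tf (n : ℕ) : ℕ := if n % 4 = 0 then n + 2 else if n % 4 = 2 then n / 2 else 2 * (n - 1)

/-- its inverse -/
def tg (n : ℕ) : ℕ := if n % 4 = 0 then n / 2 + 1 else if n % 4 = 2 then n - 2 else 2 * n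

/-- the permutation `2 n + 1 ↦ 4 n ↦ 4 n + 2 ↦ 2 n + 1` as a partial bijection -/
def ft : PI where
  toFun n := some (tf n)
  invFun n := some (tg n)
  inv n m := by
    simp only [Option.some.injEq, tf, tg]
    split_ifs <;> omega

/-- the representation of the letters -/
def letter (p : Fin 2 × Bool) : PI :=
  if p.1 = 0 then (if p.2 then fa else fa.inv) else (if p.2 then ft else ft.inv)

/-- the representation of the words -/
def ev : Word (Fin 2) →* PI := FreeMonoid.lift letter

theorem letter_inv (p : Fin 2 × Bool) : letter (p.1, !p.2) = (letter p).inv := by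
  obtain ⟨i, b⟩ := p
  cases b <;> simp only [letter] <;> split_ifs <;> first | rfl | simp_all

theorem winv_of_mul {A : Type} (p : A × Bool) (w : Word A) :
    winv (FreeMonoid.of p * w) = winv w * FreeMonoid.of (p.1, !p.2) := by
  simp [winv, FreeMonoid.toList_mul, FreeMonoid.toList_of]

theorem ev_winv (w : Word (Fin 2)) : ev (winv w) = (ev w).inv := by
  induction w using FreeMonoid.inductionOn' with
  | one => rfl
  | of_mul p w ih =>
    rw [winv_of_mul, map_mul, map_mul, ih, PI.inv_mul]
    congr 1
    show ev (FreeMonoid.of _) = (ev (FreeMonoid.of _)).inv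
    simp only [ev, FreeMonoid.lift_eval_of]
    exact letter_inv p

theorem ev_a : ev a = fa := by simp [ev, a, letter]
theorem ev_a' : ev a' = fa.inv := by simp [ev, a', letter]
theorem ev_t : ev t = ft := by simp [ev, t, letter]

theorem mul_apply_some {f g : PI} {n m : ℕ} (h : f.app n = some m) :
    (f * g).app n = g.app m := by
  show (f.app n).bind g.app = _
  rw [h]
  rfl

theorem fa_apply (n : ℕ) : fa.app n = some (2 * n) := rfl
theorem fa_inv_apply (n : ℕ) : fa.inv.app (2 * n) = some n := by
  show (if (2 * n) % 2 = 0 then some ((2 * n) / 2) else none) = some n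
  rw [if_pos (by omega)]
  congr 1
  omega
theorem ft_apply (n : ℕ) : ft.app n = some (tf n) := rfl

theorem fa_mul_inv : fa * fa.inv = 1 := by
  apply PI.ext
  intro n
  rw [mul_apply_some (fa_apply n), fa_inv_apply]
  rfl

theorem ft_cube : ft * ft * ft = 1 := by
  apply PI.ext
  intro n
  rw [mul_assoc, mul_apply_some (ft_apply n), mul_apply_some (ft_apply _), ft_apply]
  show some (tf (tf (tf n))) = some n
  congr 1
  simp only [tf]
  split_ifs <;> omega

theorem ev_u : ev u = 1 := by
  show ev (a * a * t * a' * t * a' * a') = 1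
  simp only [map_mul, ev_a, ev_a', ev_t]
  apply PI.ext
  intro n
  have e1 : tf (2 * (2 * n)) = 2 * (2 * n + 1) := by
    simp only [tf]
    rw [if_pos (by omega)]
    omega
  have e2 : tf (2 * n + 1) = 2 * (2 * n) := by
    simp only [tf]
    rw [if_neg (by omega), if_neg (by omega)]
    omega
  simp only [mul_assoc]
  rw [mul_apply_some (fa_apply n), mul_apply_some (fa_apply _), mul_apply_some (ft_apply _), e1,
    mul_apply_some (fa_inv_apply _), mul_apply_some (ft_apply _), e2,
    mul_apply_some (fa_inv_apply _), fa_inv_apply]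
  rfl

theorem ev_r : ev r = ft := by
  show ev (a * a' * u * winv u * t) = ft
  simp only [map_mul, ev_winv, ev_u, ev_a, ev_a', ev_t, PI.inv_one, fa_mul_inv, one_mul]

theorem ev_r_cube : ev (r ^ 3) = 1 := by
  rw [map_pow, ev_r, pow_succ, pow_two, ft_cube]

/-- the action of `Inv⟨a, t ∣ r ^ 3 = 1⟩` -/
def act : Inv (r ^ 3) →* PI :=
  (conGen (Rel (r ^ 3))).lift ev (by
    refine Con.conGen_le.2 ?_
    intro x y h
    show ev x = ev y
    cases h with
    | inverse u => rw [map_mul, map_mul, ev_winv, PI.mul_inv_mul]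
    | commute u v =>
      simp only [map_mul, ev_winv]
      exact PI.idem_comm _ _
    | relator => rw [ev_r_cube, map_one])

/-- `a` is not a unit in `Inv⟨a, t ∣ r ^ 3 = 1⟩` -/
theorem not_isUnit_a : ¬ IsUnit (val (r ^ 3) a) := by
  intro h
  have h1 : IsUnit (act (val (r ^ 3) a)) := h.map act
  have h2 : act (val (r ^ 3) a) = fa := ev_a
  rw [h2] at h1
  obtain ⟨g, hg⟩ := h1.exists_left_inv
  have h3 : (g * fa).app 1 = some 1 := by rw [hg]; rfl
  obtain ⟨m, -, hm⟩ := (PEquiv.trans_eq_some g fa 1 1).1 h3
  have h5 : some (2 * m) = some 1 := hm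
  rw [Option.some.injEq] at h5
  omega

/-- There are a finite alphabet `A`, a nonempty word `r` over `A ∪ A⁻¹` and `k ≥ 2` such that the set of
the minimal invertible pieces of `r ^ k` in `Inv⟨A ∣ r ^ k = 1⟩` differs from the set of the minimal
invertible pieces of `r` in `Inv⟨A ∣ r = 1⟩`. -/
theorem result : ∃ (A : Type) (_ : Finite A) (r : Word A) (k : ℕ), r ≠ 1 ∧ 2 ≤ k ∧
    pieces (r ^ k) ≠ pieces r := by
  refine ⟨Fin 2, inferInstance, r, 3, ?_, by norm_num, ?_⟩
  · intro h
    have := congrArg FreeMonoid.length h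
    simp [r, a, FreeMonoid.length_mul] at this
  · intro h
    have ha : a ∈ pieces r := by
      refine ⟨1, a' * u * winv u * t, ?_, ?_, ?_, ?_, ?_⟩
      · simp only [one_mul, r, mul_assoc]
      · exact FreeMonoid.of_ne_one _
      · rw [val_one]
        exact isUnit_one
      · rw [one_mul]
        exact isUnit_a
      · intro q q' hq hq1 hq2
        exfalso
        have h1 := congrArg FreeMonoid.length hq
        rw [FreeMonoid.length_mul, a, FreeMonoid.length_of] at h1
        have h2 : FreeMonoid.length q ≠ 0 := fun h => hq1 (FreeMonoid.length_eq_zero.1 h)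
        have h3 : FreeMonoid.length q' ≠ 0 := fun h => hq2 (FreeMonoid.length_eq_zero.1 h)
        omega
    rw [← h] at ha
    obtain ⟨x, y, -, -, hx, hxa, -⟩ := ha
    apply not_isUnit_a
    rw [val_mul] at hxa
    obtain ⟨X, hX⟩ := hx
    rw [← hX] at hxa
    exact (Units.isUnit_units_mul X _).1 hxa

end Pool.Agent.Results.MP_d4551b_al.PiecesDiffer
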